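import Mathlib
import Pool.Agent.H22.Tri2

set_option autoImplicit false
open MeasureTheory ProbabilityTheory

namespace Pool.Agent.Results.MP_cc1c4a_pr.Exists

/-- The lattice `ℤ^d`: edges join points at Euclidean distance `1`. -/
def lattice (d : ℕ) : SimpleGraph (Fin d → ℤ) where
  Adj x y := ∑ i, (x i - y i) ^ 2 = 1
  symm := ⟨fun x y h => by
    rw [← h]; exact Finset.sum_congr rfl fun i _ => by ring⟩
  loopless := ⟨fun x h => by simp at h⟩

/-- The configuration `ω` has an infinite cluster of open edges. -/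
def Perc {d : ℕ} (ω : (lattice d).edgeSet → Bool) : Prop :=
  ∃ c : (SimpleGraph.fromEdgeSet
    {e | ∃ h : e ∈ (lattice d).edgeSet, ω ⟨e, h⟩ = true}).ConnectedComponent, c.supp.Infinite

/-- The conditional probability that `e` is open given the states of all the other edges. -/
noncomputable def cp {d : ℕ} (μ : Measure ((lattice d).edgeSet → Bool)) (e : (lattice d).edgeSet) :
    ((lattice d).edgeSet → Bool) → ℝ :=
  μ[Set.indicator {ω | ω e = true} fun _ => (1 : ℝ) | cylinderEvents {f | f ≠ e}]

/-- For every `d ≥ 2` an invariant finite energy percolation which percolates and has `p_c = 1`. -/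
theorem result (d : ℕ) (hd : 2 ≤ d) : ∃ μ : Measure ((lattice d).edgeSet → Bool),
    IsProbabilityMeasure μ ∧
    (∀ φ : lattice d ≃g lattice d, μ.map (fun ω e => ω (φ.mapEdgeSet e)) = μ) ∧
    (∀ e, ∀ᵐ ω ∂μ, 0 < cp μ e ω ∧ cp μ e ω < 1) ∧
    (∀ᵐ ω ∂μ, Perc ω) ∧
    ∀ p : unitInterval, p < 1 →
      ∀ᵐ ω ∂(μ.prod (Measure.infinitePi fun _ : (lattice d).edgeSet =>
        bernoulliMeasure true false p)), ¬ Perc fun e => ω.1 e && ω.2 e := by
  refine ⟨Pool.Agent.H22.Lat.law d, inferInstanceAs (IsProbabilityMeasure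
    (Pool.Agent.H22.Lat.law d)), Pool.Agent.H22.Lat.law_inv, fun e => ?_,
    Pool.Agent.H22.Lat.law_perc hd, fun p hp => Pool.Agent.H22.Lat.law_thin hd _ ?_⟩
  · refine Pool.Agent.H22.Lat.energy _ cylinderEvents_le_pi (Pool.Agent.H22.Lat.law d) _
      (measurable_pi_apply (X := fun _ : Pool.Agent.H22.Lat.E d => Bool) e
        (measurableSet_singleton true))
      (Pool.Agent.H22.Lat.law_tol hd e true) fun A hA h =>
        Pool.Agent.H22.Lat.law_tol hd e false A hA ?_
    convert h using 3
    ext ω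
    show ω e = false ↔ ¬ ω e = true
    simp
  · rw [bernoulliMeasure_apply_of_notMem_of_mem _ (measurableSet_singleton _) (by simp) (by simp)]
    have : (p : ℝ) < 1 := hp
    simp only [ne_eq, ENNReal.coe_eq_zero, ← NNReal.coe_eq_zero, unitInterval.coe_toNNReal,
      unitInterval.coe_symm_eq]
    linarith

end Pool.Agent.Results.MP_cc1c4a_pr.Exists
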